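import Mathlib
import Pool.Agent.Lib.MP_05b8f3_gt.Surface

/-!
# Complete minimal surfaces with four omitted Gauss values and prescribed flat points
-/

set_option autoImplicit false

open Complex Metric Set

namespace Pool.Agent.Results.MP_05b8f3_gt.ManyFlatPoints

/-- The unit normal (Gauss map) `X_x × X_y / |X_x × X_y|` of `X : ℂ → ℝ³`. -/
noncomputable def normal (X : ℂ → Fin 3 → ℝ) (z : ℂ) : Fin 3 → ℝ :=
  (Real.sqrt (∑ i, (crossProduct (fderiv ℝ X z 1) (fderiv ℝ X z I) i) ^ 2))⁻¹ •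
    crossProduct (fderiv ℝ X z 1) (fderiv ℝ X z I)

/-- The second fundamental form `⟨∂_w ∂_v X, N⟩` at `z`. -/
noncomputable def second (X : ℂ → Fin 3 → ℝ) (z v w : ℂ) : ℝ :=
  ∑ i, fderiv ℝ (fun ζ => fderiv ℝ X ζ v) z w i * normal X z i

/-- The Gauss curvature `K = (L N - M²) / (E G - F²)` of `X` at `z`. -/
noncomputable def gaussCurvature (X : ℂ → Fin 3 → ℝ) (z : ℂ) : ℝ :=
  (second X z 1 1 * second X z I I - second X z 1 I ^ 2) /
    ((∑ i, fderiv ℝ X z 1 i ^ 2) * (∑ i, fderiv ℝ X z I i ^ 2) -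
      (∑ i, fderiv ℝ X z 1 i * fderiv ℝ X z I i) ^ 2)

/-- `X` restricted to the open unit disc is a complete conformal minimal immersion into `ℝ³`. -/
structure IsCompleteMinimal (X : ℂ → Fin 3 → ℝ) : Prop where
  /-- `X` is smooth on the disc -/
  smooth : ContDiffOn ℝ (⊤ : ℕ∞) X (ball 0 1)
  /-- `X` is an immersion which is conformal: `|X_x| = |X_y| ≠ 0`, `X_x ⟂ X_y` -/
  conformal : ∀ z ∈ ball (0 : ℂ) 1, fderiv ℝ X z 1 ≠ 0 ∧
    ∑ i, (fderiv ℝ X z 1 i) ^ 2 = ∑ i, (fderiv ℝ X z I i) ^ 2 ∧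
    ∑ i, fderiv ℝ X z 1 i * fderiv ℝ X z I i = 0
  /-- `X` is harmonic: `X_xx + X_yy = 0` -/
  harmonic : ∀ z ∈ ball (0 : ℂ) 1,
    fderiv ℝ (fun ζ => fderiv ℝ X ζ 1) z 1 + fderiv ℝ (fun ζ => fderiv ℝ X ζ I) z I = 0
  /-- `X` is complete: every `C¹` path in the disc that leaves every compact subset of the disc has
  infinite length on the surface -/
  complete : ∀ γ : ℝ → ℂ, ContDiffOn ℝ 1 γ (Ico 0 1) → MapsTo γ (Ico 0 1) (ball 0 1) →
    (∀ K : Set ℂ, IsCompact K → K ⊆ ball 0 1 → ∀ᶠ t in nhdsWithin (1 : ℝ) (Iio 1), γ t ∉ K) →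
    ∫⁻ t in Ioo (0 : ℝ) 1,
      ENNReal.ofReal (Real.sqrt (∑ i, (fderiv ℝ X (γ t) (deriv γ t) i) ^ 2)) = ⊤

end Pool.Agent.Results.MP_05b8f3_gt.ManyFlatPoints

namespace Pool.Agent.Results.MP_05b8f3_gt.ManyFlatPoints

open Pool.Agent.Lib.MP_05b8f3_gt

/-! ### Blaschke factors -/

/-- self maps of the disc with bounded angular derivative -/
structure Good (h : ℂ → ℂ) : Prop where
  cont : ContinuousOn h (closedBall 0 1)
  diff : DifferentiableOn ℂ h (ball 0 1)
  le : ∀ z ∈ closedBall (0 : ℂ) 1, ‖h z‖ ≤ 1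
  one : ‖h 1‖ = 1
  lip : ∃ C : ℝ, 0 ≤ C ∧ ∀ z ∈ ball (0 : ℂ) 1, 1 - ‖h z‖ ^ 2 ≤ C * (1 - ‖z‖ ^ 2)

theorem Good.mul {h k : ℂ → ℂ} (hh : Good h) (hk : Good k) : Good (fun z => h z * k z) where
  cont := hh.cont.mul hk.cont
  diff := hh.diff.mul hk.diff
  le z hz := by
    rw [norm_mul]
    exact mul_le_one₀ (hh.le z hz) (norm_nonneg _) (hk.le z hz)
  one := by rw [norm_mul, hh.one, hk.one, mul_one]
  lip := by
    obtain ⟨C, hC, h1⟩ := hh.lip
    obtain ⟨D, hD, h2⟩ := hk.lip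
    refine ⟨C + D, by positivity, fun z hz => ?_⟩
    have e1 := h1 z hz
    have e2 := h2 z hz
    have e3 := hh.le z (ball_subset_closedBall hz)
    have e4 := hk.le z (ball_subset_closedBall hz)
    rw [norm_mul, mul_pow]
    have n1 := norm_nonneg (h z)
    have n2 := norm_nonneg (k z)
    have e5 : ‖h z‖ ^ 2 ≤ 1 := by nlinarith
    have e6 : ‖k z‖ ^ 2 ≤ 1 := by nlinarith
    nlinarith [mul_nonneg (sub_nonneg.mpr e5) (sub_nonneg.mpr e6)]

theorem Good.id' : Good (fun z : ℂ => z) where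
  cont := continuousOn_id
  diff := differentiableOn_id
  le z hz := by rwa [mem_closedBall_zero_iff] at hz
  one := norm_one
  lip := ⟨1, zero_le_one, fun z _ => by rw [one_mul]⟩

theorem Good.const {c : ℂ} (hc : ‖c‖ = 1) : Good (fun _ : ℂ => c) where
  cont := continuousOn_const
  diff := differentiableOn_const _
  le z _ := hc.le
  one := hc
  lip := by
    refine ⟨0, le_rfl, fun z _ => ?_⟩
    rw [hc]; norm_num

/-- The Blaschke factor. -/
noncomputable def fac (a z : ℂ) : ℂ := (z - a) / (1 - (starRingEnd ℂ) a * z)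

theorem fac_den {a z : ℂ} (ha : ‖a‖ < 1) (hz : ‖z‖ ≤ 1) : 1 - (starRingEnd ℂ) a * z ≠ 0 := by
  intro h
  have h1 : (starRingEnd ℂ) a * z = 1 := by linear_combination -h
  have h2 : ‖a‖ * ‖z‖ = 1 := by
    rw [← RCLike.norm_conj a, ← norm_mul, h1, norm_one]
  have := norm_nonneg z
  have := norm_nonneg a
  nlinarith

theorem fac_key (a z : ℂ) : ‖1 - (starRingEnd ℂ) a * z‖ ^ 2 - ‖z - a‖ ^ 2 =
    (1 - ‖a‖ ^ 2) * (1 - ‖z‖ ^ 2) := by
  simp only [← Complex.normSq_eq_norm_sq, Complex.normSq_apply, Complex.sub_re, Complex.sub_im,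
    Complex.mul_re, Complex.mul_im, Complex.conj_re, Complex.conj_im, Complex.one_re,
    Complex.one_im]
  ring

theorem fac_norm {a z : ℂ} (ha : ‖a‖ < 1) (hz : ‖z‖ ≤ 1) :
    1 - ‖fac a z‖ ^ 2 = (1 - ‖a‖ ^ 2) * (1 - ‖z‖ ^ 2) / ‖1 - (starRingEnd ℂ) a * z‖ ^ 2 := by
  have h1 : 0 < ‖1 - (starRingEnd ℂ) a * z‖ := norm_pos_iff.mpr (fac_den ha hz)
  rw [← fac_key, fac, norm_div, div_pow, sub_div, div_self (by positivity)]

theorem fac_diff {a z : ℂ} (ha : ‖a‖ < 1) (hz : ‖z‖ ≤ 1) : DifferentiableAt ℂ (fac a) z := by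
  unfold fac
  have := fac_den ha hz
  fun_prop (disch := assumption)

theorem Good.fac {a : ℂ} (ha : ‖a‖ < 1) : Good (fac a) where
  cont z hz := (fac_diff ha (by rwa [mem_closedBall_zero_iff] at hz)).continuousAt.continuousWithinAt
  diff z hz := (fac_diff ha (by
    rw [mem_ball_zero_iff] at hz; exact hz.le)).differentiableWithinAt
  le z hz := by
    rw [mem_closedBall_zero_iff] at hz
    have h1 := fac_norm ha hz
    have h2 : 0 ≤ (1 - ‖a‖ ^ 2) * (1 - ‖z‖ ^ 2) / ‖1 - (starRingEnd ℂ) a * z‖ ^ 2 := by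
      have := norm_nonneg z
      have := norm_nonneg a
      have h3 : 0 ≤ 1 - ‖a‖ ^ 2 := by nlinarith
      have h4 : 0 ≤ 1 - ‖z‖ ^ 2 := by nlinarith
      positivity
    rw [← h1] at h2
    have := norm_nonneg (ManyFlatPoints.fac a z)
    nlinarith
  one := by
    have h1 := fac_norm ha (z := 1) (by rw [norm_one])
    rw [norm_one] at h1
    have h2 : ‖ManyFlatPoints.fac a 1‖ ^ 2 = 1 := by
      have : 1 - ‖ManyFlatPoints.fac a 1‖ ^ 2 = 0 := by rw [h1]; simp
      linarith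
    have := norm_nonneg (ManyFlatPoints.fac a 1)
    nlinarith
  lip := by
    have na := norm_nonneg a
    have h0 : 0 < 1 - ‖a‖ := by linarith
    refine ⟨(1 - ‖a‖ ^ 2) / (1 - ‖a‖) ^ 2, by
      have : 0 ≤ 1 - ‖a‖ ^ 2 := by nlinarith
      positivity, fun z hz => ?_⟩
    rw [mem_ball_zero_iff] at hz
    have nz := norm_nonneg z
    rw [fac_norm ha hz.le]
    have h2 : 1 - ‖a‖ ≤ ‖1 - (starRingEnd ℂ) a * z‖ := by
      have h3 : ‖(1 : ℂ)‖ - ‖(starRingEnd ℂ) a * z‖ ≤ ‖1 - (starRingEnd ℂ) a * z‖ :=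
        norm_sub_norm_le _ _
      rw [norm_one, norm_mul, RCLike.norm_conj] at h3
      nlinarith
    have h3 : (1 - ‖a‖) ^ 2 ≤ ‖1 - (starRingEnd ℂ) a * z‖ ^ 2 := by
      apply pow_le_pow_left₀ h0.le h2
    have h4 : 0 ≤ (1 - ‖a‖ ^ 2) * (1 - ‖z‖ ^ 2) := by
      have h5 : 0 ≤ 1 - ‖a‖ ^ 2 := by nlinarith
      have h6 : 0 ≤ 1 - ‖z‖ ^ 2 := by nlinarith
      positivity
    rw [div_mul_eq_mul_div]
    exact div_le_div_of_nonneg_left h4 (by positivity) h3

/-- The Blaschke product with double zeros at `0` and at the points of `S`. -/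
noncomputable def bl (S : Finset ℂ) (z : ℂ) : ℂ := z ^ 2 * ∏ a ∈ S, fac a z ^ 2

theorem bl_good (S : Finset ℂ) (hS : ∀ a ∈ S, ‖a‖ < 1) : Good (bl S) := by
  induction S using Finset.induction_on with
  | empty =>
    have h := Good.id'.mul Good.id'
    have e : bl ∅ = fun z => z * z := by
      funext z; simp [bl, pow_two]
    rw [e]; exact h
  | insert a S ha ih =>
    have h1 := ih (fun b hb => hS b (Finset.mem_insert_of_mem hb))
    have h2 := Good.fac (hS a (Finset.mem_insert_self _ _))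
    have h3 := h1.mul (h2.mul h2)
    have e : bl (insert a S) = fun z => bl S z * (fac a z * fac a z) := by
      funext z
      simp only [bl, Finset.prod_insert ha]
      ring
    rw [e]; exact h3

theorem bl_lt (S : Finset ℂ) (hS : ∀ a ∈ S, ‖a‖ < 1) {z : ℂ} (hz : ‖z‖ < 1) : ‖bl S z‖ < 1 := by
  have h1 : ‖∏ a ∈ S, fac a z ^ 2‖ ≤ 1 := by
    rw [norm_prod]
    apply Finset.prod_le_one
    · intro a _; exact norm_nonneg _
    · intro a ha
      rw [norm_pow]
      exact pow_le_one₀ (norm_nonneg _)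
        ((Good.fac (hS a ha)).le z (by rw [mem_closedBall_zero_iff]; exact hz.le))
  rw [bl, norm_mul, norm_pow]
  have nz := norm_nonneg z
  have h2 : ‖z‖ ^ 2 < 1 := by nlinarith
  have h3 := norm_nonneg (∏ a ∈ S, fac a z ^ 2)
  nlinarith [sq_nonneg ‖z‖]

theorem bl_deriv (S : Finset ℂ) (hS : ∀ a ∈ S, ‖a‖ < 1) {a : ℂ} (ha : a ∈ S) :
    HasDerivAt (bl S) 0 a := by
  classical
  have hfa : HasDerivAt (fac a) (deriv (fac a) a) a :=
    (fac_diff (hS a ha) (hS a ha).le).hasDerivAt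
  have hR : DifferentiableAt ℂ (fun z => z ^ 2 * ∏ b ∈ S.erase a, fac b z ^ 2) a := by
    apply DifferentiableAt.mul (by fun_prop)
    have : (fun z => ∏ b ∈ S.erase a, fac b z ^ 2) = ∏ b ∈ S.erase a, (fun z => fac b z ^ 2) := by
      funext z; simp
    rw [this]
    apply DifferentiableAt.finsetProd
    intro b hb
    exact (fac_diff (hS b (Finset.mem_of_mem_erase hb)) (hS a ha).le).pow 2
  have h1 := (hfa.pow 2).mul hR.hasDerivAt
  have h0 : fac a a = 0 := by simp [fac]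
  refine (h1.congr_deriv ?_).congr_of_eventuallyEq ?_
  · simp [h0]
  · filter_upwards with z
    simp only [bl, Pi.mul_apply, Pi.pow_apply]
    rw [← Finset.mul_prod_erase S _ ha]
    ring

/-! ### The surface -/

theorem G_diff {u v : ℂ} (hu : u ≠ 0) :
    DifferentiableAt ℝ (fun p : ℂ × ℂ => (ss p.1 p.2)⁻¹ • nn p.1 p.2) (u, v) := by
  have h1 : Differentiable ℝ (fun p : ℂ × ℂ => p.1.re) :=
    Complex.reCLM.differentiable.comp differentiable_fst
  have h2 : Differentiable ℝ (fun p : ℂ × ℂ => p.1.im) :=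
    Complex.imCLM.differentiable.comp differentiable_fst
  have h3 : Differentiable ℝ (fun p : ℂ × ℂ => p.2.re) :=
    Complex.reCLM.differentiable.comp differentiable_snd
  have h4 : Differentiable ℝ (fun p : ℂ × ℂ => p.2.im) :=
    Complex.imCLM.differentiable.comp differentiable_snd
  have hss : DifferentiableAt ℝ (fun p : ℂ × ℂ => ss p.1 p.2) (u, v) := by
    unfold ss
    exact (((h1.pow 2).add (h2.pow 2)).add ((h3.pow 2).add (h4.pow 2))).differentiableAt
  rw [differentiableAt_pi]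
  intro i
  have hn : DifferentiableAt ℝ (fun p : ℂ × ℂ => nn p.1 p.2 i) (u, v) := by
    fin_cases i
    · exact (((h1.mul h3).add (h2.mul h4)).const_mul 2).differentiableAt
    · exact (((h2.mul h3).sub (h1.mul h4)).const_mul 2).differentiableAt
    · exact (((h1.pow 2).add (h2.pow 2)).sub ((h3.pow 2).add (h4.pow 2))).differentiableAt
  exact (hss.inv (ss_pos hu).ne').mul hn

/-- a vector orthogonal to `u`, `v` is parallel to `u × v` -/
theorem cross_par (n u v : Fin 3 → ℝ) (hu : ∑ i, n i * u i = 0) (hv : ∑ i, n i * v i = 0) :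
    n 2 * crossProduct u v 0 = n 0 * crossProduct u v 2 ∧
    n 2 * crossProduct u v 1 = n 1 * crossProduct u v 2 := by
  rw [Fin.sum_univ_three] at hu hv
  simp only [cross_apply, Matrix.cons_val_zero, Matrix.cons_val_one, Matrix.cons_val]
  constructor
  · linear_combination u 1 * hv - v 1 * hu
  · linear_combination -(u 0) * hv + v 0 * hu

theorem norm_AB_w : ‖A (1 / (1 + 2 * I))‖ = ‖B (1 / (1 + 2 * I))‖ := by
  unfold A B
  rw [cay_w1]
  have e1 : ‖th2 (1 + I)‖ = ‖th2 I‖ := by rw [add_comm, norm_th2_add_one]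
  have e2 : ‖th3 (1 + I)‖ = ‖th2 I‖ := by rw [add_comm, th3_add_one, th4_I]
  simp only [norm_div, norm_pow, e1, e2]

theorem norm_AB_zero : ‖A 0‖ ≠ ‖B 0‖ := by
  intro h
  apply ratio_nonconst
  rw [h, norm_AB_w, mul_comm]

theorem nn_two (u v : ℂ) : nn u v 2 = ‖u‖ ^ 2 - ‖v‖ ^ 2 := by
  rw [← Complex.normSq_eq_norm_sq, ← Complex.normSq_eq_norm_sq, Complex.normSq_apply,
    Complex.normSq_apply]
  simp only [nn, Matrix.cons_val]
  ring

theorem real_zero {f : ℂ → ℂ} {a : ℂ} (hf : HasDerivAt f 0 a) :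
    HasFDerivAt f (0 : ℂ →L[ℝ] ℂ) a := by
  have h := hf.hasFDerivAt.restrictScalars ℝ
  refine h.congr_fderiv ?_
  ext
  simp

theorem main (f : ℂ → ℂ) (hf : Good f) (hlt : ∀ z : ℂ, ‖z‖ < 1 → ‖f z‖ < 1) (hf0 : f 0 = 0)
    (q : ℂ) (hq : ‖q‖ < 1) (hfq : f q = 1 / (1 + 2 * I)) (S : Finset ℂ) (hS : ∀ a ∈ S, ‖a‖ < 1)
    (hd : ∀ a ∈ S, HasDerivAt f 0 a) :
    ∃ X : ℂ → Fin 3 → ℝ, IsCompleteMinimal X ∧
      (∃ c : ℝ, 0 < c ∧ ∀ z ∈ ball (0 : ℂ) 1, ∀ v : ℂ,
        c * ‖v‖ / (1 - ‖z‖ ^ 2) ≤ Real.sqrt (∑ i, (fderiv ℝ X z v i) ^ 2)) ∧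
      (∀ n : Fin 3 → ℝ, n ≠ 0 → ∀ c : ℝ, ∃ z ∈ ball (0 : ℂ) 1, ∑ i, n i * X z i ≠ c) ∧
      (∃ z₁ ∈ ball (0 : ℂ) 1, ∃ z₂ ∈ ball (0 : ℂ) 1, normal X z₁ ≠ normal X z₂) ∧
      (∀ a ∈ S, gaussCurvature X a = 0 ∧ fderiv ℝ (normal X) a = 0) ∧
      4 ≤ {v : Fin 3 → ℝ | ∑ i, v i ^ 2 = 1 ∧ ∀ z ∈ ball (0 : ℂ) 1, normal X z ≠ v}.encard := by
  set sa : ℂ → ℂ := fun z => A (f z) with hsa
  set sb : ℂ → ℂ := fun z => B (f z) with hsb
  have hlt' : ∀ z ∈ ball (0 : ℂ) 1, ‖f z‖ < 1 := fun z hz =>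
    hlt z (by rwa [mem_ball_zero_iff] at hz)
  have hfd : ∀ z ∈ ball (0 : ℂ) 1, DifferentiableAt ℂ f z := fun z hz =>
    hf.diff.differentiableAt (isOpen_ball.mem_nhds hz)
  have hsad : ∀ z ∈ ball (0 : ℂ) 1, DifferentiableAt ℂ sa z := fun z hz =>
    DifferentiableAt.comp z (differentiableAt_A (hlt' z hz)) (hfd z hz)
  have hsbd : ∀ z ∈ ball (0 : ℂ) 1, DifferentiableAt ℂ sb z := fun z hz =>
    DifferentiableAt.comp z (differentiableAt_B (hlt' z hz)) (hfd z hz)
  have hphi : ∀ k : Fin 3, ∀ z ∈ ball (0 : ℂ) 1, DifferentiableAt ℂ (phi sa sb k) z := by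
    intro k z hz
    have ha := hsad z hz
    have hb := hsbd z hz
    fin_cases k
    · exact ((hb.pow 2).sub (ha.pow 2)).div_const 2
    · exact (((hb.pow 2).add (ha.pow 2)).const_mul Complex.I).div_const 2
    · exact ha.mul hb
  have hphiOn : ∀ k : Fin 3, DifferentiableOn ℂ (phi sa sb k) (ball 0 1) := fun k z hz =>
    (hphi k z hz).differentiableWithinAt
  have hP : ∀ k : Fin 3, ∃ F : ℂ → ℂ, ∀ z ∈ ball (0 : ℂ) 1, HasDerivAt F (phi sa sb k z) z :=
    fun k => (hphiOn k).isExactOn_ball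
  choose F hF using hP
  set X : ℂ → Fin 3 → ℝ := fun z k => (F k z).re with hX
  have hXd : ∀ z ∈ ball (0 : ℂ) 1, ∀ k, HasFDerivAt (fun z => (F k z).re)
      (Complex.reCLM.comp ((ContinuousLinearMap.toSpanSingleton ℂ (phi sa sb k z)).restrictScalars ℝ)) z := by
    intro z hz k
    have h1 := (hF k z hz).hasFDerivAt.restrictScalars ℝ
    exact Complex.reCLM.hasFDerivAt.comp z h1
  have hXp : ∀ z ∈ ball (0 : ℂ) 1, ∀ v : ℂ, fderiv ℝ X z v = fun k => (phi sa sb k z * v).re := by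
    intro z hz v
    have h1 : HasFDerivAt X (ContinuousLinearMap.pi fun k =>
      (Complex.reCLM.comp ((ContinuousLinearMap.toSpanSingleton ℂ (phi sa sb k z)).restrictScalars ℝ))) z :=
      hasFDerivAt_pi.mpr (hXd z hz)
    rw [h1.fderiv]
    ext k
    simp only [ContinuousLinearMap.coe_pi', ContinuousLinearMap.coe_comp, Function.comp,
      ContinuousLinearMap.coe_restrictScalars', ContinuousLinearMap.toSpanSingleton_apply,
      Complex.reCLM_apply, smul_eq_mul]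
    rw [mul_comm]
  have hXf : ∀ z ∈ ball (0 : ℂ) 1, ∀ v : ℂ, fderiv ℝ X z v = dX (sa z) (sb z) v := by
    intro z hz v
    rw [hXp z hz v]
    ext k
    fin_cases k <;> rfl
  have hXX : ∀ z ∈ ball (0 : ℂ) 1, ∀ v w : ℂ, fderiv ℝ (fun ζ => fderiv ℝ X ζ v) z w =
      fun k => (deriv (phi sa sb k) z * w * v).re := by
    intro z hz v w
    have h0 : (fun ζ => fderiv ℝ X ζ v) =ᶠ[nhds z] fun ζ k => (phi sa sb k ζ * v).re := by
      filter_upwards [isOpen_ball.mem_nhds hz] with ζ hζ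
      exact hXp ζ hζ v
    rw [h0.fderiv_eq]
    have h1 : ∀ k, HasFDerivAt (fun ζ => (phi sa sb k ζ * v).re)
      (Complex.reCLM.comp ((ContinuousLinearMap.toSpanSingleton ℂ
        (deriv (phi sa sb k) z * v)).restrictScalars ℝ)) z := by
      intro k
      have h2 := ((hphi k z hz).hasDerivAt.mul_const v).hasFDerivAt.restrictScalars ℝ
      exact Complex.reCLM.hasFDerivAt.comp z h2
    have h3 := hasFDerivAt_pi.mpr h1
    rw [h3.fderiv]
    ext k
    simp only [ContinuousLinearMap.coe_pi', ContinuousLinearMap.coe_comp, Function.comp,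
      ContinuousLinearMap.coe_restrictScalars', ContinuousLinearMap.toSpanSingleton_apply,
      Complex.reCLM_apply, smul_eq_mul]
    congr 1
    ring
  have hane : ∀ z ∈ ball (0 : ℂ) 1, sa z ≠ 0 := fun z hz => A_ne (hlt' z hz)
  have hbne : ∀ z ∈ ball (0 : ℂ) 1, sb z ≠ 0 := fun z hz => B_ne (hlt' z hz)
  have habne : ∀ z ∈ ball (0 : ℂ) 1, sa z ≠ sb z := fun z hz => A_ne_B (hlt' z hz)
  have habne' : ∀ z ∈ ball (0 : ℂ) 1, sa z ≠ - sb z := fun z hz => A_ne_neg_B (hlt' z hz)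
  have hNf : ∀ z ∈ ball (0 : ℂ) 1, normal X z = (ss (sa z) (sb z))⁻¹ • nn (sa z) (sb z) := by
    intro z hz
    simp only [normal, hXf z hz]
    exact gauss_eq _ _ (hane z hz)
  have h0mem : (0 : ℂ) ∈ ball (0 : ℂ) 1 := mem_ball_self one_pos
  have hqmem : q ∈ ball (0 : ℂ) 1 := by rwa [mem_ball_zero_iff]
  have hplane : ∀ n : Fin 3 → ℝ, n ≠ 0 → ∀ c : ℝ, ∃ z ∈ ball (0 : ℂ) 1, ∑ i, n i * X z i ≠ c := by
    intro n hn c
    by_contra hcon
    push Not at hcon
    have horth : ∀ z ∈ ball (0 : ℂ) 1, ∀ v : ℂ, ∑ i, n i * fderiv ℝ X z v i = 0 := by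
      intro z hz v
      have h1 : HasFDerivAt (fun z => ∑ i, n i * (F i z).re) (∑ i, n i •
        (Complex.reCLM.comp ((ContinuousLinearMap.toSpanSingleton ℂ
          (phi sa sb i z)).restrictScalars ℝ))) z :=
        HasFDerivAt.fun_sum fun i _ => (hXd z hz i).const_mul (n i)
      have h2 : HasFDerivAt (fun z => ∑ i, n i * (F i z).re) (0 : ℂ →L[ℝ] ℝ) z := by
        refine (hasFDerivAt_const c z).congr_of_eventuallyEq ?_
        filter_upwards [isOpen_ball.mem_nhds hz] with ζ hζ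
        exact hcon ζ hζ
      have h3 := congrArg (fun L : ℂ →L[ℝ] ℝ => L v) (h1.unique h2)
      simp only [_root_.sum_apply, _root_.smul_apply,
        ContinuousLinearMap.coe_comp, Function.comp, ContinuousLinearMap.coe_restrictScalars',
        ContinuousLinearMap.toSpanSingleton_apply, Complex.reCLM_apply, smul_eq_mul,
        _root_.zero_apply] at h3
      rw [← h3, hXp z hz v]
      refine Finset.sum_congr rfl fun i _ => ?_
      rw [mul_comm v]
    have hcr : ∀ z ∈ ball (0 : ℂ) 1, n 2 * nn (sa z) (sb z) 0 = n 0 * nn (sa z) (sb z) 2 ∧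
        n 2 * nn (sa z) (sb z) 1 = n 1 * nn (sa z) (sb z) 2 := by
      intro z hz
      have h1 := cross_par n _ _ (horth z hz 1) (horth z hz I)
      rw [hXf z hz, hXf z hz, cross_eq] at h1
      have hs := ss_pos (b := sb z) (hane z hz)
      simp only [Pi.smul_apply, smul_eq_mul] at h1
      constructor
      · have := h1.1
        have h2 : (1 / 4 * ss (sa z) (sb z)) * (n 2 * nn (sa z) (sb z) 0) =
          (1 / 4 * ss (sa z) (sb z)) * (n 0 * nn (sa z) (sb z) 2) := by linarith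
        exact mul_left_cancel₀ (by positivity) h2
      · have := h1.2
        have h2 : (1 / 4 * ss (sa z) (sb z)) * (n 2 * nn (sa z) (sb z) 1) =
          (1 / 4 * ss (sa z) (sb z)) * (n 1 * nn (sa z) (sb z) 2) := by linarith
        exact mul_left_cancel₀ (by positivity) h2
    have hq2 : nn (sa q) (sb q) 2 = 0 := by
      rw [nn_two]
      simp only [hsa, hsb, hfq, norm_AB_w, sub_self]
    have h02 : nn (sa 0) (sb 0) 2 ≠ 0 := by
      rw [nn_two]
      simp only [hsa, hsb, hf0]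
      intro h
      apply norm_AB_zero
      have h1 : ‖A 0‖ ^ 2 = ‖B 0‖ ^ 2 := by linarith
      exact (pow_left_inj₀ (norm_nonneg _) (norm_nonneg _) two_ne_zero).mp h1
    have hn2 : n 2 = 0 := by
      by_contra hne
      have h1 := hcr q hqmem
      rw [hq2, mul_zero, mul_zero] at h1
      have c0 : nn (sa q) (sb q) 0 = 0 := (mul_eq_zero.mp h1.1).resolve_left hne
      have c1 : nn (sa q) (sb q) 1 = 0 := (mul_eq_zero.mp h1.2).resolve_left hne
      have h2 := nn_sq (sa q) (sb q)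
      rw [Fin.sum_univ_three, c0, c1, hq2] at h2
      have hs := ss_pos (b := sb q) (hane q hqmem)
      nlinarith
    apply hn
    have h1 := hcr 0 h0mem
    rw [hn2, zero_mul, zero_mul] at h1
    have d0 : n 0 = 0 := (mul_eq_zero.mp h1.1.symm).resolve_right h02
    have d1 : n 1 = 0 := (mul_eq_zero.mp h1.2.symm).resolve_right h02
    funext i
    fin_cases i
    · exact d0
    · exact d1
    · exact hn2
  obtain ⟨C, hC, hlip⟩ := hf.lip
  have hC1 : 0 < C + 1 := by linarith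
  have hdens : ∀ z ∈ ball (0 : ℂ) 1,
      (3 / 256) / (C + 1) / (1 - ‖z‖ ^ 2) ≤ (1 / 2) * (‖sa z‖ ^ 2 + ‖sb z‖ ^ 2) := by
    intro z hz
    have h1 := AB_lower (hlt' z hz)
    have hz1 : ‖z‖ < 1 := by rwa [mem_ball_zero_iff] at hz
    have hz0 := norm_nonneg z
    have hf1 := hlt' z hz
    have hf2 := norm_nonneg (f z)
    have h2 : 0 < 1 - ‖z‖ ^ 2 := by nlinarith
    have h4 : 0 < 1 - ‖f z‖ ^ 2 := by nlinarith
    have h5 : 1 - ‖f z‖ ^ 2 ≤ (C + 1) * (1 - ‖z‖ ^ 2) := by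
      have := hlip z hz
      nlinarith
    have h6 : (3 / 128) / ((C + 1) * (1 - ‖z‖ ^ 2)) ≤ (3 / 128) / (1 - ‖f z‖ ^ 2) :=
      div_le_div_of_nonneg_left (by norm_num) h4 h5
    have h7 : (3 / 256) / (C + 1) / (1 - ‖z‖ ^ 2) =
        (1 / 2) * ((3 / 128) / ((C + 1) * (1 - ‖z‖ ^ 2))) := by
      field_simp
      norm_num
    rw [h7]
    have h8 := h6.trans h1
    simp only [hsa, hsb]
    linarith
  have hbound : ∀ z ∈ ball (0 : ℂ) 1, ∀ v : ℂ, (3 / 256) / (C + 1) * ‖v‖ / (1 - ‖z‖ ^ 2) ≤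
      Real.sqrt (∑ i, (fderiv ℝ X z v i) ^ 2) := by
    intro z hz v
    rw [hXf _ hz, dX_sq, Real.sqrt_sq (by positivity), mul_div_right_comm]
    exact mul_le_mul_of_nonneg_right (hdens z hz) (norm_nonneg v)
  refine ⟨X, ⟨?_, ?_, ?_, ?_⟩, ⟨(3 / 256) / (C + 1), by positivity, hbound⟩, hplane,
    ⟨0, h0mem, q, hqmem, ?_⟩, ?_, ?_⟩
  · rw [contDiffOn_pi]
    intro k
    have h1 : DifferentiableOn ℂ (F k) (ball 0 1) := fun z hz =>
      (hF k z hz).differentiableAt.differentiableWithinAt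
    have h2 : ContDiffOn ℂ (⊤ : ℕ∞) (F k) (ball 0 1) := h1.contDiffOn isOpen_ball
    have h3 : ContDiffOn ℝ (⊤ : ℕ∞) (F k) (ball 0 1) := h2.restrict_scalars ℝ
    exact Complex.reCLM.contDiff.comp_contDiffOn h3
  · intro z hz
    rw [hXf z hz, hXf z hz]
    refine ⟨?_, ?_, dX_orth _ _⟩
    · intro h0
      have h1 := dX_sq (sa z) (sb z) 1
      rw [h0] at h1
      simp only [Pi.zero_apply, norm_one, mul_one] at h1
      have h2 : 0 < ‖sa z‖ := norm_pos_iff.mpr (hane z hz)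
      have h3 : 0 < ((1 / 2) * (‖sa z‖ ^ 2 + ‖sb z‖ ^ 2)) ^ 2 := by positivity
      rw [← h1] at h3
      simp at h3
    · rw [dX_sq, dX_sq, norm_one, Complex.norm_I]
  · intro z hz
    rw [hXX z hz, hXX z hz]
    ext k
    simp only [Pi.add_apply, Pi.zero_apply, mul_one]
    rw [mul_assoc, Complex.I_mul_I]
    simp
  · intro γ hγ hm hK
    refine path_length (fun z => (1 / 2) * (‖sa z‖ ^ 2 + ‖sb z‖ ^ 2)) ((3 / 256) / (C + 1))
      (by positivity) hdens γ hγ hm hK _ ?_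
    intro t ht
    have htm : γ t ∈ ball (0 : ℂ) 1 := hm ⟨ht.1.le, ht.2⟩
    rw [hXf _ htm, dX_sq, Real.sqrt_sq (by positivity)]
  · rw [hNf _ h0mem, hNf _ hqmem]
    intro h
    have h3 := gauss_eq_imp (hane _ h0mem) (hane _ hqmem) h
    apply ratio_nonconst
    simpa [hsa, hsb, hf0, hfq] using h3
  · intro a ha
    have ham : a ∈ ball (0 : ℂ) 1 := by rw [mem_ball_zero_iff]; exact hS a ha
    have hfa := hd a ha
    have hsa0 : HasDerivAt sa 0 a := by
      have := (differentiableAt_A (hlt' a ham)).hasDerivAt.comp a hfa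
      rw [mul_zero] at this
      exact this
    have hsb0 : HasDerivAt sb 0 a := by
      have := (differentiableAt_B (hlt' a ham)).hasDerivAt.comp a hfa
      rw [mul_zero] at this
      exact this
    have hph0 : ∀ k : Fin 3, deriv (phi sa sb k) a = 0 := by
      intro k
      fin_cases k
      · have := (((hsb0.pow 2).sub (hsa0.pow 2)).div_const 2).deriv
        refine this.trans ?_
        simp
      · have := ((((hsb0.pow 2).add (hsa0.pow 2)).const_mul Complex.I).div_const 2).deriv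
        refine this.trans ?_
        simp
      · have := (hsa0.mul hsb0).deriv
        refine this.trans ?_
        simp
    have hsec : ∀ v w : ℂ, second X a v w = 0 := by
      intro v w
      unfold second
      rw [hXX a ham]
      simp [hph0]
    refine ⟨?_, ?_⟩
    · unfold gaussCurvature
      rw [hsec, hsec, hsec]
      simp
    · have h0 : normal X =ᶠ[nhds a] fun z => (ss (sa z) (sb z))⁻¹ • nn (sa z) (sb z) := by
        filter_upwards [isOpen_ball.mem_nhds ham] with ζ hζ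
        exact hNf ζ hζ
      rw [h0.fderiv_eq]
      have h1 : HasFDerivAt (fun z => (sa z, sb z)) ((0 : ℂ →L[ℝ] ℂ).prod (0 : ℂ →L[ℝ] ℂ)) a :=
        (real_zero hsa0).prodMk (real_zero hsb0)
      have h2 := (G_diff (u := sa a) (v := sb a) (hane a ham)).hasFDerivAt
      have h3 := HasFDerivAt.comp a (f := fun z => (sa z, sb z)) h2 h1
      have h4 := h3.fderiv
      have h5 : (fun z => (ss (sa z) (sb z))⁻¹ • nn (sa z) (sb z)) =
        (fun p : ℂ × ℂ => (ss p.1 p.2)⁻¹ • nn p.1 p.2) ∘ (fun z => (sa z, sb z)) := rfl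
      have h6 : (0 : ℂ →L[ℝ] ℂ).prod (0 : ℂ →L[ℝ] ℂ) = 0 := rfl
      rw [h5, h4, h6, ContinuousLinearMap.comp_zero]
  · have h5 : ((({![0, 0, 1], ![0, 0, -1], ![1, 0, 0], ![-1, 0, 0]} : Finset (Fin 3 → ℝ))) :
        Set (Fin 3 → ℝ)) ⊆
        {v : Fin 3 → ℝ | ∑ i, v i ^ 2 = 1 ∧ ∀ z ∈ ball (0 : ℂ) 1, normal X z ≠ v} := by
      intro v hv
      have hv' : v = ![0, 0, 1] ∨ v = ![0, 0, -1] ∨ v = ![1, 0, 0] ∨ v = ![-1, 0, 0] := by
        simpa using hv
      refine ⟨?_, ?_⟩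
      · rcases hv' with rfl | rfl | rfl | rfl <;> simp [Fin.sum_univ_three]
      · intro z hz
        rw [hNf z hz]
        exact gauss_ne (hane z hz) (hbne z hz) (habne z hz) (habne' z hz) hv'
    have h6 : ({![0, 0, 1], ![0, 0, -1], ![1, 0, 0], ![-1, 0, 0]} : Finset (Fin 3 → ℝ)).card = 4 := by
      have n12 : (![0, 0, 1] : Fin 3 → ℝ) ≠ ![0, 0, -1] := by
        intro h; have := congrFun h 2; simp at this; linarith
      have n13 : (![0, 0, 1] : Fin 3 → ℝ) ≠ ![1, 0, 0] := by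
        intro h; have := congrFun h 0; simp at this
      have n14 : (![0, 0, 1] : Fin 3 → ℝ) ≠ ![-1, 0, 0] := by
        intro h; have := congrFun h 0; simp at this
      have n23 : (![0, 0, -1] : Fin 3 → ℝ) ≠ ![1, 0, 0] := by
        intro h; have := congrFun h 0; simp at this
      have n24 : (![0, 0, -1] : Fin 3 → ℝ) ≠ ![-1, 0, 0] := by
        intro h; have := congrFun h 0; simp at this
      have n34 : (![1, 0, 0] : Fin 3 → ℝ) ≠ ![-1, 0, 0] := by
        intro h; have := congrFun h 0; simp at this; linarith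
      rw [Finset.card_insert_of_notMem, Finset.card_insert_of_notMem, Finset.card_insert_of_notMem,
        Finset.card_singleton]
      · simpa using n34
      · simp only [Finset.mem_insert, Finset.mem_singleton, not_or]; exact ⟨n23, n24⟩
      · simp only [Finset.mem_insert, Finset.mem_singleton, not_or]; exact ⟨n12, n13, n14⟩
    have h7 := Set.encard_le_encard h5
    rw [Set.encard_coe_eq_coe_finsetCard, h6] at h7
    exact_mod_cast h7

/-- For every finite set `S` of points of the open unit disc there is a complete conformal minimal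
immersion of the disc into `ℝ³`, whose metric dominates a multiple of the hyperbolic metric, whose
image lies in no plane and whose Gauss map is nonconstant and omits at least four values, such that
every point of `S` is a flat point. -/
theorem result (S : Finset ℂ) (hS : ∀ a ∈ S, ‖a‖ < 1) :
    ∃ X : ℂ → Fin 3 → ℝ, IsCompleteMinimal X ∧
      (∃ c : ℝ, 0 < c ∧ ∀ z ∈ ball (0 : ℂ) 1, ∀ v : ℂ,
        c * ‖v‖ / (1 - ‖z‖ ^ 2) ≤ Real.sqrt (∑ i, (fderiv ℝ X z v i) ^ 2)) ∧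
      (∀ n : Fin 3 → ℝ, n ≠ 0 → ∀ c : ℝ, ∃ z ∈ ball (0 : ℂ) 1, ∑ i, n i * X z i ≠ c) ∧
      (∃ z₁ ∈ ball (0 : ℂ) 1, ∃ z₂ ∈ ball (0 : ℂ) 1, normal X z₁ ≠ normal X z₂) ∧
      (∀ a ∈ S, gaussCurvature X a = 0 ∧ fderiv ℝ (normal X) a = 0) ∧
      4 ≤ {v : Fin 3 → ℝ | ∑ i, v i ^ 2 = 1 ∧ ∀ z ∈ ball (0 : ℂ) 1, normal X z ≠ v}.encard := by
  have hG := bl_good S hS
  set w : ℂ := 1 / (1 + 2 * I) with hw
  have hden : (1 + 2 * I : ℂ) ≠ 0 := by
    intro h
    have := congrArg Complex.re h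
    simp at this
  have hw0 : w ≠ 0 := by rw [hw]; exact one_div_ne_zero hden
  have hw1 : ‖w‖ < 1 := by
    rw [hw, norm_div, norm_one, div_lt_one]
    · have : ‖(1 + 2 * Complex.I : ℂ)‖ ^ 2 = 5 := by
        rw [← Complex.normSq_eq_norm_sq, Complex.normSq_apply]
        simp; norm_num
      have h0 := norm_nonneg (1 + 2 * Complex.I : ℂ)
      nlinarith
    · exact norm_pos_iff.mpr hden
  have hc : ContinuousOn (fun t : ℝ => ‖bl S (t : ℂ)‖) (Icc 0 1) := by
    apply ContinuousOn.norm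
    apply hG.cont.comp Complex.continuous_ofReal.continuousOn
    intro t ht
    rw [mem_closedBall_zero_iff, Complex.norm_real, Real.norm_eq_abs, abs_of_nonneg ht.1]
    exact ht.2
  have hivt := intermediate_value_Icc (zero_le_one (α := ℝ)) hc
  have hmem : ‖w‖ ∈ Icc (‖bl S ((0 : ℝ) : ℂ)‖) (‖bl S ((1 : ℝ) : ℂ)‖) := by
    constructor
    · simp [bl]
    · rw [Complex.ofReal_one, hG.one]; exact hw1.le
  obtain ⟨t, ht, htw⟩ := hivt hmem
  simp only at htw
  have ht1 : t ≠ 1 := by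
    rintro rfl
    rw [Complex.ofReal_one, hG.one] at htw
    linarith
  have hb0 : bl S (t : ℂ) ≠ 0 := by
    intro h
    rw [h, norm_zero] at htw
    exact hw0 (norm_eq_zero.mp htw.symm)
  have hom : ‖w / bl S (t : ℂ)‖ = 1 := by
    rw [norm_div, htw, div_self (norm_ne_zero_iff.mpr hw0)]
  refine main (fun z => w / bl S (t : ℂ) * bl S z) ((Good.const hom).mul hG) ?_ ?_ (t : ℂ) ?_ ?_ S hS
    ?_
  · intro z hz
    rw [norm_mul, hom, one_mul]
    exact bl_lt S hS hz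
  · simp [bl]
  · rw [Complex.norm_real, Real.norm_eq_abs, abs_of_nonneg ht.1]
    exact lt_of_le_of_ne ht.2 ht1
  · exact div_mul_cancel₀ _ hb0
  · intro a ha
    have := (bl_deriv S hS ha).const_mul (w / bl S (t : ℂ))
    rwa [mul_zero] at this

end Pool.Agent.Results.MP_05b8f3_gt.ManyFlatPoints
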